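import Pool.Agent.Lib.MP_e9747f_lc.Intv

set_option autoImplicit false
open Pool.Agent.Lib.MP_e9747f_lc

/-- A group with nonabelian subgroups that commute with their other conjugates and have arbitrarily
long cyclic orbits of conjugates has an undecidable `Σ_n`-theory for every `n ≥ 2`; in particular it
is not `Σ_n`-decidable. -/
theorem Pool.Agent.Results.MP_e9747f_lc.CommutingConj.result (G : Type) [Group G]
    (h : ∀ k : ℕ, ∃ H : Subgroup G, (∃ f ∈ H, ∃ g ∈ H, ¬ Commute f g) ∧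
      (∀ z : G, z ∈ Subgroup.normalizer H ∨ ∀ f ∈ H, ∀ g ∈ H, Commute f (z * g * z⁻¹)) ∧
      ∃ s : G, ∀ i, 0 < i → i ≤ k → s ^ i ∉ Subgroup.normalizer H)
    (n : ℕ) (hn : 2 ≤ n) :
    ¬ ComputablePred (SigmaTrue n G (Empty.elim : Empty → G)) ∧ ¬ SigmaDecidable n G := by
  have k : Crit G := crit_of_conj h
  obtain ⟨n, rfl⟩ : ∃ k, n = k + 1 + 1 := ⟨n - 2, by omega⟩
  exact ⟨not_computable_crit k _ n, fun ⟨c, _, _, e⟩ => not_computable_crit k _ n e⟩
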