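import Pool.Agent.Lib.MP_e9747f_lc.Intv

set_option autoImplicit false
open Pool.Agent.Lib.MP_e9747f_lc

/-- A group of increasing bijections of a complete linear order with two noncommuting elements that
are trivial near the global fixed points, and without a Heisenberg pair, has an undecidable
`Σ_n`-theory for every `n ≥ 2`; in particular it is not `Σ_n`-decidable. -/
theorem Pool.Agent.Results.MP_e9747f_lc.IntervalPair.result (G X : Type) [Group G]
    [CompleteLinearOrder X] [TopologicalSpace X] [OrderTopology X] [MulAction G X]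
    [FaithfulSMul G X] (mo : ∀ g : G, Monotone fun x : X => g • x) (f g : G) (c : ¬ Commute f g)
    (h : ∀ p : X, (∀ u : G, u • p = p) → ∀ᶠ x in nhds p, f • x = x ∧ g • x = x)
    (hs : ∀ u v : G, Commute (u * v * u⁻¹ * v⁻¹) u → Commute (u * v * u⁻¹ * v⁻¹) v → Commute u v)
    (n : ℕ) (hn : 2 ≤ n) :
    ¬ ComputablePred (SigmaTrue n G (Empty.elim : Empty → G)) ∧ ¬ SigmaDecidable n G := by
  have k : Crit G := crit_of_pair mo (fun f g c => not_and_or.1 fun e => c (hs f g e.1 e.2))
    (fun p hp => (h p fun g => hp g trivial).mono fun _ e => e.1)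
    (fun p hp => (h p fun g => hp g trivial).mono fun _ e => e.2) c
  obtain ⟨n, rfl⟩ : ∃ k, n = k + 1 + 1 := ⟨n - 2, by omega⟩
  exact ⟨not_computable_crit k _ n, fun ⟨c, _, _, e⟩ => not_computable_crit k _ n e⟩
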