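import Pool.Agent.Lib.MP_e9747f_lc.Main

set_option autoImplicit false
open Pool.Agent.Lib.MP_e9747f_lc

/-- A group with a faithful action by homeomorphisms on a Hausdorff space that is locally moving on
some nonempty open set has an undecidable `Σ_n`-theory for every `n ≥ 5`; in particular it is not
`Σ_n`-decidable. -/
theorem Pool.Agent.Results.MP_e9747f_lc.LocallyMoving.result (G X : Type) [Group G]
    [TopologicalSpace X] [T2Space X] [MulAction G X] [ContinuousConstSMul G X] [FaithfulSMul G X]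
    (O : Set X) (hO : IsOpen O) (hne : O.Nonempty)
    (hL : ∀ U : Set X, IsOpen U → U.Nonempty → U ⊆ O → ∃ g : G, g ≠ 1 ∧ ∀ x ∉ U, g • x = x)
    (n : ℕ) (hn : 5 ≤ n) :
    ¬ ComputablePred (SigmaTrue n G (Empty.elim : Empty → G)) ∧ ¬ SigmaDecidable n G := by
  obtain ⟨n, rfl⟩ : ∃ k, n = k + 4 + 1 := ⟨n - 5, by omega⟩
  exact ⟨not_computable hO hne hL _ n, fun ⟨c, _, _, h⟩ => not_computable hO hne hL _ n h⟩
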