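import Pool.Agent.Lib.MP_e9747f_lc.OutF
import Pool.Agent.Lib.MP_e9747f_lc.Trans2

set_option autoImplicit false
open Pool.Agent.Lib.MP_e9747f_lc

/-- Let `n ≥ 4`, let `Γ` be a group of automorphisms of the free group of rank `n` that contains a
nontrivial power of every automorphism fixing all basis elements but one (for instance a subgroup of
finite index), and let `G` be a quotient of `Γ` by a group of inner automorphisms. Then solvability
of finite systems of equations with constants in `G` is undecidable; in particular `G` is not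
`Σ_m`-decidable for any `m ≥ 1`. -/
theorem Pool.Agent.Results.MP_e9747f_lc.OutFree.result (n : ℕ) (hn : 4 ≤ n)
    (Γ : Subgroup (MulAut (FreeGroup (Fin n))))
    (hΓ : ∀ (i : Fin n) (φ : MulAut (FreeGroup (Fin n))),
      (∀ j ≠ i, φ (FreeGroup.of j) = FreeGroup.of j) → ∃ N : ℕ, N ≠ 0 ∧ φ ^ N ∈ Γ)
    (G : Type) [Group G] (π : Γ →* G) (hπ : Function.Surjective π)
    (hk : ∀ φ : Γ, π φ = 1 → ∃ w, (φ : MulAut (FreeGroup (Fin n))) = MulAut.conj w) :
    (∀ a : ℕ → G, Subgroup.closure (Set.range a) = ⊤ →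
      ¬ ComputablePred fun S : List (List ((ℕ ⊕ ℕ) × Bool)) =>
        ∃ x : ℕ → G, ∀ w ∈ S, FreeGroup.lift (Sum.elim a x) (FreeGroup.mk w) = 1) ∧
    ∀ m, 1 ≤ m → ¬ SigmaDecidable m G := by
  have e : ∀ {i j : Fin 4}, i ≠ j → Fin.castLE hn i ≠ Fin.castLE hn j :=
    fun h => (Fin.castLE_injective hn).ne h
  obtain ⟨s, R, h1, h2⟩ := out_interp (x := Fin.castLE hn 0) (a := Fin.castLE hn 1)
    (b := Fin.castLE hn 2) (c := Fin.castLE hn 3) (e (by decide)) (e (by decide)) (e (by decide))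
    (e (by decide)) (e (by decide)) (e (by decide)) Γ hΓ π hπ
    fun φ h => (hk φ h).imp fun _ => Eq.symm
  refine ⟨fun a ha => dioph_problem h1 h2 ha, fun m hm ⟨c, _, _, e⟩ => ?_⟩
  obtain ⟨m, rfl⟩ : ∃ k, m = k + 1 := ⟨m - 1, by omega⟩
  exact sigma_problem h1 h2 (by simp [c.surjective.range_eq]) m e
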